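import Pool.Agent.Helper99.DF.St

set_option autoImplicit false

/-! Project DF (helper99), MP_d49380_lc, module SI (helper38): the identities hold everywhere. -/

namespace Pool.Agent.Helper38.DF

open Pool.Agent.Helper99.DF

open MvPolynomial in
theorem td_int {σ : Type} (c : ℤ) : ((c : ℤ) : MvPolynomial σ ℤ).totalDegree = 0 := by
  have : ((c : ℤ) : MvPolynomial σ ℤ) = C c := by
    rw [← map_intCast (C : ℤ →+* MvPolynomial σ ℤ) c]
    simp
  rw [this, totalDegree_C]

open MvPolynomial in
theorem td_sum {σ : Type} (B : ℕ) (l : List (MvPolynomial σ ℤ)) (h : ∀ x ∈ l, x.totalDegree ≤ B) :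
    l.sum.totalDegree ≤ B := by
  induction l with
  | nil => simp
  | cons a l ih =>
    rw [List.sum_cons]
    refine le_trans (totalDegree_add _ _) (max_le (h a (by simp)) (ih fun x hx => h x (by simp [hx])))

open MvPolynomial in
theorem td_prod {σ : Type} {ι : Type} (B : ℕ) (l : List ι) (f : ι → MvPolynomial σ ℤ)
    (h : ∀ x ∈ l, (f x).totalDegree ≤ B) : (l.map f).prod.totalDegree ≤ l.length * B := by
  induction l with
  | nil => simp
  | cons a l ih =>
    rw [List.map_cons, List.prod_cons, List.length_cons]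
    have h1 := h a (by simp)
    have h2 := ih fun x hx => h x (by simp [hx])
    refine le_trans (totalDegree_mul _ _) ?_
    rw [add_mul, one_mul, add_comm]
    exact add_le_add h2 h1

open MvPolynomial in
theorem td_pow {σ : Type} {p : MvPolynomial σ ℤ} {d : ℕ} (h : p.totalDegree ≤ d) (n : ℕ) :
    (p ^ n).totalDegree ≤ n * d :=
  le_trans (totalDegree_pow _ _) (Nat.mul_le_mul_left _ h)

open MvPolynomial in
theorem td_mul {σ : Type} {p q : MvPolynomial σ ℤ} {d e : ℕ} (h : p.totalDegree ≤ d)
    (h' : q.totalDegree ≤ e) : (p * q).totalDegree ≤ d + e :=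
  le_trans (totalDegree_mul _ _) (add_le_add h h')

open MvPolynomial in
theorem td_T {σ : Type} (G : ℕ → MvPolynomial σ ℤ) (h : ∀ k, (G k).totalDegree ≤ 1) (j k : ℕ) :
    ((T^[j] G) k).totalDegree ≤ 2 ^ j := by
  induction j generalizing k with
  | zero => exact h k
  | succ j ih =>
    rw [T_succ]
    refine le_trans (totalDegree_sub _ _) (max_le ?_ ?_)
    · have := td_pow (ih k) 2
      have h2 : 2 ^ (j + 1) = 2 * 2 ^ j := by ring
      omega
    · have := td_mul (ih (k - 1)) (ih (k + 1))
      have h2 : 2 ^ (j + 1) = 2 * 2 ^ j := by ring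
      omega

theorem td_mon {σ : Type} (W : List ℕ) (N d : ℕ) (e : List ℕ) (b : ℕ → MvPolynomial σ ℤ)
    (hb : ∀ k, (b k).totalDegree ≤ d) (he : ∀ k ∈ W, ex e k ≤ N) :
    (mon W N e b).totalDegree ≤ W.length * (2 * N * d) := by
  unfold mon
  apply td_prod
  intro k hk
  have h1 := td_pow (td_mul (hb (k - 1)) (hb (k + 1))) (ex e k)
  have h2 := td_pow (td_pow (hb k) 2) (N - ex e k)
  refine le_trans (td_mul h1 h2) ?_
  obtain ⟨r, hr⟩ := Nat.exists_eq_add_of_le (he k hk)
  have h3 : N - ex e k = r := by omega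
  rw [h3, hr]
  apply le_of_eq
  ring

theorem td_PT {σ : Type} (W : List ℕ) (N d : ℕ) (p : Pol) (b : ℕ → MvPolynomial σ ℤ)
    (hb : ∀ k, (b k).totalDegree ≤ d) (he : ∀ ce ∈ p, ∀ k ∈ W, ex ce.2 k ≤ N) :
    (PT W N p b).totalDegree ≤ W.length * (2 * N * d) := by
  unfold PT
  apply td_sum
  intro x hx
  rw [List.mem_map] at hx
  obtain ⟨ce, hce, rfl⟩ := hx
  have h1 := td_mul (td_int (σ := σ) ce.1).le (td_mon W N d ce.2 b hb (he ce hce))
  rwa [zero_add] at h1

theorem map_ex (e : List ℕ) : (List.range e.length).map (ex e) = e := by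
  apply List.ext_getElem
  · simp
  · intro i h1 h2
    simp [ex, h2]

theorem td_evB {σ : Type} (q : Pol) (D : ℕ) (b : ℕ → MvPolynomial σ ℤ)
    (hb : ∀ k, (b k).totalDegree ≤ 1) (he : ∀ ce ∈ q, ce.2.sum ≤ D) :
    (evB q b).totalDegree ≤ D := by
  unfold evB
  apply td_sum
  intro x hx
  rw [List.mem_map] at hx
  obtain ⟨ce, hce, rfl⟩ := hx
  have h2 : ((List.range ce.2.length).map (fun k => b k ^ ex ce.2 k)).prod.totalDegree ≤ ce.2.sum := by
    refine le_trans (MvPolynomial.totalDegree_list_prod _) ?_
    rw [List.map_map]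
    conv_rhs => rw [← map_ex ce.2]
    apply List.sum_le_sum
    intro k _
    have := td_pow (hb k) (ex ce.2 k)
    rw [mul_one] at this
    exact this
  have h1 := td_mul (td_int (σ := σ) ce.1).le (le_trans h2 (he ce hce))
  rwa [zero_add] at h1

/-- every list of digits occurs -/
theorem digits (B n : ℕ) (f : ℕ → ℕ) (hf : ∀ k, f k < B) :
    ∃ m < B ^ n, ∀ k < n, m / B ^ k % B = f k := by
  have hB : 0 < B := lt_of_le_of_lt (Nat.zero_le _) (hf 0)
  induction n with
  | zero => exact ⟨0, by simp, fun k hk => absurd hk (by omega)⟩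
  | succ n ih =>
    obtain ⟨m, hm, h⟩ := ih
    refine ⟨m + B ^ n * f n, ?_, fun k hk => ?_⟩
    · have h1 := hf n
      calc m + B ^ n * f n < B ^ n + B ^ n * f n := by omega
        _ = B ^ n * (f n + 1) := by ring
        _ ≤ B ^ n * B := Nat.mul_le_mul_left _ h1
        _ = B ^ (n + 1) := (pow_succ _ _).symm
    · rcases Nat.lt_succ_iff_lt_or_eq.mp hk with h1 | h1
      · have h2 : B ^ n * f n = B ^ k * (B * (B ^ (n - k - 1) * f n)) := by
          have h3 : B ^ n = B ^ k * (B * B ^ (n - k - 1)) := by
            rw [← pow_succ', ← pow_add]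
            congr 1
            omega
          rw [h3]
          ring
        rw [h2, Nat.add_mul_div_left _ _ (pow_pos hB k), Nat.add_mul_mod_self_left]
        exact h k h1
      · subst h1
        rw [Nat.add_mul_div_left _ _ (pow_pos hB k), Nat.div_eq_of_lt hm, zero_add,
          Nat.mod_eq_of_lt (hf k)]

/-- the right side of the identity -/
def rhs {R : Type} [CommRing R] (N s : ℕ) (Zs : List ℕ) (ents : List Ent)
    (qs : List (List (List Pol))) (v : ℕ → R) (a : ℕ) : R :=
  ((List.range (s + 1)).map (fun j => ((List.range ents.length).map (fun b =>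
      evB (((qs.getD a []).getD j []).getD b []) v *
        PT (Zs ++ [(ents.getD b (0, [], [])).1]) N (ents.getD b (0, [], [])).2.2 (T^[j] v))).sum)).sum

/-- the left side of the identity -/
def lhs {R : Type} [CommRing R] (N s : ℕ) (Zs : List ℕ) (ents : List Ent) (v : ℕ → R) (a : ℕ) : R :=
  PT (Zs ++ [(ents.getD a (0, [], [])).1]) N (ents.getD a (0, [], [])).2.2 (T^[s + 1] v)

theorem lhs_map {R S : Type} [CommRing R] [CommRing S] (φ : R →+* S) (N s : ℕ) (Zs : List ℕ)
    (ents : List Ent) (v : ℕ → R) (a : ℕ) :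
    lhs N s Zs ents (fun k => φ (v k)) a = φ (lhs N s Zs ents v a) := by
  unfold lhs
  rw [T_iter_map, PT_map]

theorem rhs_map {R S : Type} [CommRing R] [CommRing S] (φ : R →+* S) (N s : ℕ) (Zs : List ℕ)
    (ents : List Ent) (qs : List (List (List Pol))) (v : ℕ → R) (a : ℕ) :
    rhs N s Zs ents qs (fun k => φ (v k)) a = φ (rhs N s Zs ents qs v a) := by
  unfold rhs
  rw [map_list_sum, List.map_map]
  congr 1
  apply List.map_congr_left
  intro j _
  simp only [Function.comp]
  rw [map_list_sum, List.map_map]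
  congr 1
  apply List.map_congr_left
  intro b _
  simp only [Function.comp]
  rw [T_iter_map, PT_map, evB_map, map_mul]

theorem hSI : StSI := by
  intro n N s Dq Dg Zs ents qs hN hI v hv0 hvn a ha
  obtain ⟨hD, hq, hid⟩ := hI
  -- the generic sequence
  set G : ℕ → MvPolynomial (Fin n) ℤ := fun k => if h : k < n ∧ k ≠ 0 then MvPolynomial.X ⟨k, h.1⟩ else 0 with hG
  have hGd : ∀ k, (G k).totalDegree ≤ 1 := by
    intro k
    rw [hG]
    dsimp only
    split_ifs with h
    · rw [MvPolynomial.totalDegree_X]
    · simp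
  have hGev : ∀ (x : Fin n → ℤ) (k : ℕ), MvPolynomial.eval x (G k) =
      if h : k < n ∧ k ≠ 0 then x ⟨k, h.1⟩ else 0 := by
    intro x k
    rw [hG]
    dsimp only
    split_ifs with h
    · rw [MvPolynomial.eval_X]
    · simp
  have hmem : ∀ b < ents.length, ents.getD b (0, [], []) ∈ ents := by
    intro b hb
    rw [List.getD_eq_getElem _ _ hb]
    exact List.getElem_mem hb
  have hex : ∀ b < ents.length, ∀ ce ∈ (ents.getD b (0, [], [])).2.2,
      ∀ k ∈ Zs ++ [(ents.getD b (0, [], [])).1], ex ce.2 k ≤ N := by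
    intro b hb ce hce k hk
    have h1 := hN _ (hmem b hb) ce hce
    rw [List.mem_append, List.mem_singleton] at hk
    rcases hk with hk | hk
    · exact h1.1 k hk
    · rw [hk]
      exact h1.2
  have hlen : ∀ b, (Zs ++ [(ents.getD b (0, [], [])).1]).length = Zs.length + 1 := by
    intro b
    simp
  have hPd : ∀ b < ents.length, ∀ j, (PT (Zs ++ [(ents.getD b (0, [], [])).1]) N
      (ents.getD b (0, [], [])).2.2 (T^[j] G)).totalDegree ≤ (Zs.length + 1) * (2 * N * 2 ^ j) := by
    intro b hb j
    have := td_PT (Zs ++ [(ents.getD b (0, [], [])).1]) N (2 ^ j) (ents.getD b (0, [], [])).2.2 (T^[j] G)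
      (td_T G hGd j) (hex b hb)
    rwa [hlen] at this
  have hqd : ∀ j b, (evB (((qs.getD a []).getD j []).getD b []) G).totalDegree ≤ Dq := by
    intro j b
    apply td_evB _ _ _ hGd
    intro ce hce
    by_cases h1 : a < qs.length
    · have m1 : qs.getD a [] ∈ qs := by
        rw [List.getD_eq_getElem _ _ h1]
        exact List.getElem_mem h1
      by_cases h2 : j < (qs.getD a []).length
      · have m2 : (qs.getD a []).getD j [] ∈ qs.getD a [] := by
          rw [List.getD_eq_getElem _ _ h2]
          exact List.getElem_mem h2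
        by_cases h3 : b < ((qs.getD a []).getD j []).length
        · have m3 : ((qs.getD a []).getD j []).getD b [] ∈ (qs.getD a []).getD j [] := by
            rw [List.getD_eq_getElem _ _ h3]
            exact List.getElem_mem h3
          exact hq _ m1 _ m2 _ m3 ce hce
        · rw [List.getD_eq_default _ _ (not_lt.mp h3)] at hce
          exact absurd hce (by simp)
      · rw [List.getD_eq_default (qs.getD a []) [] (not_lt.mp h2)] at hce
        exact absurd hce (by simp)
    · rw [List.getD_eq_default qs [] (not_lt.mp h1)] at hce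
      exact absurd hce (by simp)
  have hDg : ∀ j ≤ s + 1, Dq + (Zs.length + 1) * (2 * N * 2 ^ j) ≤ Dg := by
    intro j hj
    refine le_trans ?_ hD
    have h1 : 2 ^ j ≤ 2 ^ (s + 1) := Nat.pow_le_pow_right (by norm_num) hj
    have h2 : (Zs.length + 1) * (2 * N * 2 ^ j) ≤ (Zs.length + 1) * (2 * N * 2 ^ (s + 1)) :=
      Nat.mul_le_mul_left _ (Nat.mul_le_mul_left _ h1)
    have h3 : (Zs.length + 1) * (2 * N * 2 ^ (s + 1)) = 2 * N * (Zs.length + 1) * 2 ^ (s + 1) := by ring
    omega
  have hL : (lhs N s Zs ents G a).totalDegree ≤ Dg := by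
    have h1 := hPd a ha (s + 1)
    have h2 := hDg (s + 1) le_rfl
    unfold lhs
    omega
  have hR : (rhs N s Zs ents qs G a).totalDegree ≤ Dg := by
    unfold rhs
    apply td_sum
    intro x hx
    rw [List.mem_map] at hx
    obtain ⟨j, hj, rfl⟩ := hx
    rw [List.mem_range] at hj
    apply td_sum
    intro x hx
    rw [List.mem_map] at hx
    obtain ⟨b, hb, rfl⟩ := hx
    rw [List.mem_range] at hb
    have h1 := td_mul (hqd j b) (hPd b hb j)
    exact le_trans h1 (hDg j (by omega))
  have hzero : lhs N s Zs ents G a - rhs N s Zs ents qs G a = 0 := by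
    apply MvPolynomial.eq_zero_of_eval_zero_at_prod_finset _
      (fun _ => (Finset.range (Dg + 1)).map Nat.castEmbedding)
    · intro i
      rw [Finset.card_map, Finset.card_range]
      have h1 := MvPolynomial.degreeOf_le_totalDegree (lhs N s Zs ents G a - rhs N s Zs ents qs G a) i
      have h2 := MvPolynomial.totalDegree_sub (lhs N s Zs ents G a) (rhs N s Zs ents qs G a)
      have h3 := max_le hL hR
      omega
    · intro x hx
      have hx' : ∀ i, ∃ d : ℕ, d < Dg + 1 ∧ (d : ℤ) = x i := by
        intro i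
        have h1 := hx i
        rw [Finset.mem_map] at h1
        obtain ⟨d, hd, h2⟩ := h1
        exact ⟨d, Finset.mem_range.mp hd, h2⟩
      choose d hd hdx using hx'
      obtain ⟨m, hm, hmd⟩ := digits (Dg + 1) n (fun k => if h : k < n then d ⟨k, h⟩ else 0) (by
        intro k
        split_ifs with h
        · exact hd _
        · omega)
      have hsq : (fun k => MvPolynomial.eval x (G k)) = Pool.Agent.Helper99.DF.sq (gv n Dg m) := by
        funext k
        rw [hGev]
        unfold Pool.Agent.Helper99.DF.sq gv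
        by_cases hk : k < n
        · rw [List.getD_eq_getElem _ _ (by simpa using hk)]
          simp only [List.getElem_map, List.getElem_range]
          by_cases hk0 : k = 0
          · rw [if_pos hk0, dif_neg (fun h => h.2 hk0)]
          · rw [if_neg hk0, dif_pos ⟨hk, hk0⟩, hmd k hk, dif_pos hk, hdx]
        · rw [List.getD_eq_default _ _ (by simpa using hk), dif_neg (fun h => hk h.1)]
      rw [map_sub, sub_eq_zero, ← lhs_map, ← rhs_map, hsq]
      have h1 := hid a (List.mem_range.mpr ha) m (List.mem_range.mpr hm)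
      unfold idl at h1
      unfold lhs rhs
      simp only [sq_TL_iter] at h1
      exact h1
  have hfin : (fun k => MvPolynomial.eval (fun i : Fin n => v i) (G k)) = v := by
    funext k
    rw [hGev]
    split_ifs with h
    · rfl
    · by_cases hk : k < n
      · have hk0 : k = 0 := by
          by_contra h0
          exact h ⟨hk, h0⟩
        rw [hk0, hv0]
      · exact (hvn k (not_lt.mp hk)).symm
  have h1 := congrArg (MvPolynomial.eval (fun i : Fin n => v i)) hzero
  rw [map_sub, map_zero, sub_eq_zero, ← lhs_map, ← rhs_map, hfin] at h1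
  exact h1

end Pool.Agent.Helper38.DF
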